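import Pool.Agent.Helper61.BL.LCon
import Pool.Agent.Helper62.CX.Data

/-!
# Package C5: preparations
-/

set_option autoImplicit false

open Polynomial Matrix Finset Filter

namespace Pool.Agent.Helper61.CX

open Pool.Agent.Helper62.BM Pool.Agent.Helper62.BW Pool.Agent.Helper62.CX Pool.Agent.Helper90.BM
  Pool.Agent.Helper61.BM
open Pool.Agent.Helper61.BL (tay_C tay_X tay_eq tay_inj tay_coeff0 tay_der D_dot D_mulVec ι_inj
  clear LX al al_inj ell ell_ι tr_ell tr_poly Orth mem_Orth clearM mem_of_smul orth_stable_f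
  closure smul_map PolyM mem_PolyM double_ann span_stable)

section alg

variable {k : Type} [Field k] {n : ℕ}

theorem hor_c (D : Cdat k n) {x : Fin n → PowerSeries k} (hx : D.HorC x) :
    (tay D.c D.W • fun a => PowerSeries.derivative k (x a)) = -(D.M.map (tay D.c) *ᵥ x) := by
  funext a
  rw [Pi.neg_apply, Pi.smul_apply, smul_eq_mul]
  exact eq_neg_of_add_eq_zero_left (hx a)

theorem hor_r (D : Cdat k n) {y : Fin n → PowerSeries k} (hy : D.HorR y) :
    (tay D.c D.W • fun a => PowerSeries.derivative k (y a)) = (D.M.map (tay D.c))ᵀ *ᵥ y := by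
  funext a
  rw [Pi.smul_apply, smul_eq_mul]
  exact hy a

/-- `W (y θ x)' = y (W ∇ θ) x` -/
theorem star (D : Cdat k n) {x y : Fin n → PowerSeries k} (hx : D.HorC x) (hy : D.HorR y)
    (θ : Matrix (Fin n) (Fin n) k[X]) :
    tay D.c D.W * PowerSeries.derivative k (y ⬝ᵥ (θ.map (tay D.c) *ᵥ x)) =
      y ⬝ᵥ ((D.wD θ).map (tay D.c) *ᵥ x) := by
  set c := D.c with hc
  set T := θ.map (tay c) with hT
  set M := D.M.map (tay c) with hM
  have h1 : T.map (PowerSeries.derivative k) = (θ.map fun q => derivative q).map (tay c) := by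
    ext1 i j
    simp only [Matrix.map_apply, hT, tay_der]
  have h2 : (D.wD θ).map (tay c) =
      tay c D.W • T.map (PowerSeries.derivative k) + M * T - T * M := by
    rw [h1]
    unfold Cdat.wD
    ext1 i j
    rw [Matrix.map_apply, Matrix.sub_apply, Matrix.add_apply, map_sub, map_add, Matrix.smul_apply,
      smul_eq_mul, map_mul, Matrix.sub_apply, Matrix.add_apply, Matrix.smul_apply, smul_eq_mul,
      hM, hT, ← Matrix.map_mul, ← Matrix.map_mul]
    rfl
  set x' : Fin n → PowerSeries k := fun i => PowerSeries.derivative k (x i) with hx'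
  have h3 : tay c D.W * ((fun i => PowerSeries.derivative k (y i)) ⬝ᵥ (T *ᵥ x)) =
      y ⬝ᵥ (M *ᵥ (T *ᵥ x)) := by
    rw [← smul_eq_mul, ← smul_dotProduct, hc, hor_r D hy, Matrix.mulVec_transpose,
      ← Matrix.dotProduct_mulVec]
  have h4 : tay c D.W * (y ⬝ᵥ (T *ᵥ x')) = - (y ⬝ᵥ (T *ᵥ (M *ᵥ x))) := by
    rw [← smul_eq_mul, ← dotProduct_smul, ← Matrix.mulVec_smul, hx', hc, hor_c D hx,
      Matrix.mulVec_neg, dotProduct_neg]
  have h5 : tay c D.W * (y ⬝ᵥ (T.map (PowerSeries.derivative k) *ᵥ x)) =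
      y ⬝ᵥ ((tay c D.W • T.map (PowerSeries.derivative k)) *ᵥ x) := by
    rw [Matrix.smul_mulVec, dotProduct_smul, smul_eq_mul]
  rw [h2, D_dot, D_mulVec, mul_add, h3, dotProduct_add, mul_add, h5, h4, Matrix.sub_mulVec,
    Matrix.add_mulVec, ← Matrix.mulVec_mulVec, ← Matrix.mulVec_mulVec, dotProduct_sub,
    dotProduct_add]
  ring

theorem W_ne (D : Cdat k n) (hw : D.w.eval D.c ≠ 0) : D.W ≠ 0 := by
  intro h
  rcases mul_eq_zero.1 h with h1 | h1
  · exact X_sub_C_ne_zero _ h1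
  · exact hw (by rw [h1, eval_zero])

theorem ιW_ne (D : Cdat k n) (hw : D.w.eval D.c ≠ 0) : ι k D.W ≠ 0 := fun h =>
  W_ne D hw (ι_inj (h.trans (map_zero _).symm))

theorem w_B (D : Cdat k n) (hw : D.w.eval D.c ≠ 0) (i j : Fin n) :
    ι k D.W * D.B i j = ι k (D.M i j) := by
  have h1 : D.B i j = ι k (D.M i j) * (ι k D.W)⁻¹ := rfl
  rw [h1, mul_comm, mul_assoc, inv_mul_cancel₀ (ιW_ne D hw), mul_one]

theorem NB_poly (D : Cdat k n) (hw : D.w.eval D.c ≠ 0) {Dk : Der (KX k)}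
    (hDk : IsDer Dk) (θ : Matrix (Fin n) (Fin n) k[X]) :
    ι k D.W • NB Dk D.B (θ.map (ι k)) = (D.wD θ).map (ι k) := by
  have hB : ι k D.W • D.B = D.M.map (ι k) := by
    ext1 i j
    rw [Matrix.smul_apply, smul_eq_mul, w_B D hw, Matrix.map_apply]
  unfold NB Cdat.wD
  rw [smul_sub, smul_add, ← Matrix.smul_mul, ← Matrix.mul_smul, hB, ← Matrix.map_mul,
    ← Matrix.map_mul]
  ext1 i j
  rw [Matrix.sub_apply, Matrix.add_apply, Matrix.smul_apply, Matrix.map_apply, Matrix.map_apply,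
    hDk, Matrix.map_apply, Matrix.map_apply, Matrix.map_apply, Matrix.sub_apply, Matrix.add_apply,
    Matrix.smul_apply, map_sub, map_add, smul_eq_mul, smul_eq_mul, map_mul]
  rfl

theorem M_eval (D : Cdat k n) (hμ : D.μ ≠ 0)
    (hM : ∀ i j, D.μ * (D.M i j).eval D.c = D.κ * D.r i * D.e j) :
    D.M.map (Polynomial.eval D.c) = (D.μ⁻¹ * D.κ) • Matrix.vecMulVec D.r D.e := by
  ext1 i j
  rw [Matrix.map_apply, Matrix.smul_apply, Matrix.vecMulVec_apply, smul_eq_mul]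
  have h1 := hM i j
  have h2 : (D.M i j).eval D.c = D.μ⁻¹ * (D.μ * (D.M i j).eval D.c) := by
    rw [← mul_assoc, inv_mul_cancel₀ hμ, one_mul]
  rw [h2, h1]
  ring

theorem M_sq (D : Cdat k n) (hμ : D.μ ≠ 0)
    (hM : ∀ i j, D.μ * (D.M i j).eval D.c = D.κ * D.r i * D.e j) (her : D.e ⬝ᵥ D.r = 0) :
    D.M.map (Polynomial.eval D.c) * D.M.map (Polynomial.eval D.c) = 0 := by
  rw [M_eval D hμ hM, Matrix.smul_mul, Matrix.mul_smul, Matrix.vecMulVec_mul_vecMulVec, her]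
  ext1 i j
  simp

theorem M_r (D : Cdat k n) (hμ : D.μ ≠ 0)
    (hM : ∀ i j, D.μ * (D.M i j).eval D.c = D.κ * D.r i * D.e j) (her : D.e ⬝ᵥ D.r = 0) :
    D.M.map (Polynomial.eval D.c) *ᵥ D.r = 0 := by
  rw [M_eval D hμ hM, Matrix.smul_mulVec, Matrix.vecMulVec_mulVec, her]
  simp

/-- the adjoint matrix -/
theorem N_eval (D : Cdat k n) :
    (Matrix.of fun i j => -D.M j i).map (Polynomial.eval D.c) =
      -(D.M.map (Polynomial.eval D.c))ᵀ := by
  ext1 i j
  rw [Matrix.map_apply, Matrix.of_apply, eval_neg]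
  rfl

theorem N_sq (D : Cdat k n) (hμ : D.μ ≠ 0)
    (hM : ∀ i j, D.μ * (D.M i j).eval D.c = D.κ * D.r i * D.e j) (her : D.e ⬝ᵥ D.r = 0) :
    (Matrix.of fun i j => -D.M j i).map (Polynomial.eval D.c) *
      (Matrix.of fun i j => -D.M j i).map (Polynomial.eval D.c) = 0 := by
  rw [N_eval, Matrix.neg_mul, Matrix.mul_neg, neg_neg, ← Matrix.transpose_mul, M_sq D hμ hM her,
    Matrix.transpose_zero]

theorem N_e (D : Cdat k n) (hμ : D.μ ≠ 0)
    (hM : ∀ i j, D.μ * (D.M i j).eval D.c = D.κ * D.r i * D.e j) (her : D.e ⬝ᵥ D.r = 0) :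
    (Matrix.of fun i j => -D.M j i).map (Polynomial.eval D.c) *ᵥ D.e = 0 := by
  rw [N_eval, M_eval D hμ hM, Matrix.transpose_smul, Matrix.transpose_vecMulVec, Matrix.neg_mulVec,
    Matrix.smul_mulVec, Matrix.vecMulVec_mulVec, dotProduct_comm, her]
  simp

theorem M_tr (D : Cdat k n) (hμ : D.μ ≠ 0) (hκ : D.κ ≠ 0)
    (hM : ∀ i j, D.μ * (D.M i j).eval D.c = D.κ * D.r i * D.e j)
    (θ : Matrix (Fin n) (Fin n) k)
    (h : (θ * D.M.map (Polynomial.eval D.c)).trace = 0) : D.e ⬝ᵥ (θ *ᵥ D.r) = 0 := by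
  rw [M_eval D hμ hM, Matrix.mul_smul, Matrix.trace_smul, Matrix.mul_vecMulVec,
    Matrix.trace_vecMulVec, smul_eq_mul] at h
  rw [dotProduct_comm]
  exact (mul_eq_zero.1 h).resolve_left (mul_ne_zero (inv_ne_zero hμ) hκ)

/-- The relations of `x yᵀ` are stable under the connection. -/
theorem orth_stable (D : Cdat k n) (hw : D.w.eval D.c ≠ 0) {x y : Fin n → PowerSeries k}
    (hx : D.HorC x) (hy : D.HorR y) {Dk : Der (KX k)} (hDk : IsDer Dk) :
    ∀ θ ∈ Orth (ell D.c) (Matrix.vecMulVec (fun i => al k (x i)) fun i => al k (y i)),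
      NB Dk D.B θ ∈
        Orth (ell D.c) (Matrix.vecMulVec (fun i => al k (x i)) fun i => al k (y i)) := by
  intro θ hθ
  set W := Orth (ell D.c) (Matrix.vecMulVec (fun i => al k (x i)) fun i => al k (y i))
    with hW
  obtain ⟨d, θ', hd, hdθ⟩ := clearM θ
  have h1 : θ'.map (ι k) ∈ W := hdθ ▸ W.smul_mem _ hθ
  have h2 : y ⬝ᵥ (θ'.map (tay D.c) *ᵥ x) = 0 := by
    apply al_inj
    rw [map_zero, ← tr_poly]
    exact h1
  have h3 : (D.wD θ').map (ι k) ∈ W := by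
    rw [hW, mem_Orth, tr_poly, ← star D hx hy, h2, map_zero, mul_zero, map_zero]
  rw [← NB_poly D hw hDk] at h3
  have h4 := mem_of_smul (W_ne D hw) h3
  rw [← hdθ, NB_smul] at h4
  have h5 := W.sub_mem h4 (W.smul_mem (Dk (ι k d)) hθ)
  rw [add_sub_cancel_left] at h5
  exact mem_of_smul hd h5

end alg

end Pool.Agent.Helper61.CX
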