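import Pool.Agent.Helper61.CX.ConA

/-!
# Package C5: the algebraic part
-/

set_option autoImplicit false

open Polynomial Matrix Finset Filter

namespace Pool.Agent.Helper61.CX

open Pool.Agent.Helper62.BM Pool.Agent.Helper62.BW Pool.Agent.Helper62.CX Pool.Agent.Helper90.BM
  Pool.Agent.Helper61.BM
open Pool.Agent.Helper61.BL (tay_C tay_X tay_eq tay_inj tay_coeff0 tay_der D_dot D_mulVec ι_inj
  clear LX al al_inj ell ell_ι tr_ell tr_poly Orth mem_Orth clearM mem_of_smul orth_stable_f
  closure smul_map PolyM mem_PolyM double_ann span_stable)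

/-- The algebraic part. -/
theorem core1 (hPS : L_PS) (hVan : C_Van) (hLie : K_Lie) (n : ℕ) (hn : 2 ≤ n) (k : Type) [Field k]
    [CharZero k] (E : Cdat k n) (hOk : E.Ok) (hS : E.Strong)
    (L' : Type) [Field L'] (f : KX k →+* L') (Dk : Der (KX k)) (hDk : IsDer Dk) (D : Der L')
    (hfD : ∀ z, f (Dk z) = D (f z)) (φ : Matrix (Fin n) (Fin n) L')
    (hNφ : NB D (E.B.map f) φ = 0)
    (hdpm : ∀ W : Submodule L' (Matrix (Fin n) (Fin n) L'),
      (∀ η ∈ W, NB D (E.B.map f) η ∈ W) → ∀ η ∈ W, φ * η - η * φ ∈ W)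
    (hval : ∀ η : Matrix (Fin n) (Fin n) k[X], ((η.map (ι k)).map f * φ).trace = 0 →
      E.e ⬝ᵥ (η.map (Polynomial.eval E.c) *ᵥ E.r) = 0)
    (A : Matrix (Fin n) (Fin n) (KX k)) (hA : A.trace = 0)
    (θ : Matrix (Fin n) (Fin n) (KX k))
    (hθ : (θ.map f * φ).trace = 0) :
    (θ * A).trace = 0 := by
  classical
  have hOk' := hOk
  obtain ⟨hw, hμ, hκ, he, hr, her, hM⟩ := hOk'
  set T0 := Orth f φ with hT0
  have hT0st : ∀ θ ∈ T0, NB Dk E.B θ ∈ T0 := orth_stable_f f Dk D hfD _ φ hNφ
  -- the horizontal vectors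
  obtain ⟨x, hx0, hx⟩ : ∃ x : Fin n → PowerSeries k,
      (∀ a, PowerSeries.constantCoeff (x a) = E.r a) ∧ E.HorC x := by
    obtain ⟨x, h1, h2⟩ := hPS k n E.M E.w E.c hw (M_sq E hμ hM her) E.r (M_r E hμ hM her)
    exact ⟨x, h1, h2⟩
  obtain ⟨y, hy0, hy⟩ : ∃ y : Fin n → PowerSeries k,
      (∀ a, PowerSeries.constantCoeff (y a) = E.e a) ∧ E.HorR y := by
    obtain ⟨y, h1, h2⟩ := hPS k n (Matrix.of fun i j => -E.M j i) E.w E.c hw
      (N_sq E hμ hM her) E.e (N_e E hμ hM her)
    refine ⟨y, h1, fun a => ?_⟩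
    have h3 := h2 a
    have h4 : ∑ b, tay E.c ((Matrix.of fun i j => -E.M j i : Matrix (Fin n) (Fin n) k[X]) a b) *
        y b = -∑ b, tay E.c (E.M b a) * y b := by
      rw [← Finset.sum_neg_distrib]
      refine Finset.sum_congr rfl fun b _ => ?_
      rw [Matrix.of_apply, map_neg, neg_mul]
    rw [h4, add_neg_eq_zero] at h3
    exact h3
  obtain ⟨b0, hb0⟩ : ∃ b0, E.e b0 ≠ 0 := by
    by_contra hcon
    push Not at hcon
    exact he (funext hcon)
  have hyb : y b0 ≠ 0 := fun h => by
    have := hy0 b0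
    rw [h, map_zero] at this
    exact hb0 this.symm
  obtain ⟨a0, ha0'⟩ : ∃ a0, E.r a0 ≠ 0 := by
    by_contra hcon
    push Not at hcon
    exact hr (funext hcon)
  have ha0 : x a0 ≠ 0 := fun h => by
    have := hx0 a0
    rw [h, map_zero] at this
    exact ha0' this.symm
  -- the polynomial relations of `φ` are relations of `x yᵀ`
  have hvan : ∀ η ∈ PolyM T0, y ⬝ᵥ (η.map (tay E.c) *ᵥ x) = 0 := by
    refine hVan k n E hOk x y hx hy hx0 hy0 (PolyM T0) ?_ ?_ ?_
    · intro η hη
      rw [mem_PolyM, ← NB_poly E hw hDk]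
      exact T0.smul_mem _ (hT0st _ hη)
    · intro η hη
      rw [mem_PolyM, smul_map] at hη
      exact mem_of_smul (Polynomial.X_sub_C_ne_zero _) hη
    · intro η hη
      exact hval η ((mem_Orth f φ _).1 hη)
  -- the rank one matrix
  set c := E.c with hc
  set X' : Matrix (Fin n) (Fin n) (LX k) :=
    Matrix.vecMulVec (fun i => al k (x i)) (fun i => al k (y i)) with hX'
  set TJ := Orth (ell c) X' with hTJ
  have hTJst : ∀ θ ∈ TJ, NB Dk E.B θ ∈ TJ := orth_stable E hw hx hy hDk
  have hle : T0 ≤ TJ := by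
    intro θ₁ h1
    obtain ⟨d, θ', hd, hdθ⟩ := clearM θ₁
    have h2 : θ' ∈ PolyM T0 := by
      rw [mem_PolyM, ← hdθ]
      exact T0.smul_mem _ h1
    have h3 : θ'.map (ι k) ∈ TJ := by
      rw [hTJ, mem_Orth, hX', tr_poly, hvan θ' h2, map_zero]
    rw [← hdθ] at h3
    exact mem_of_smul hd h3
  let _ : Algebra (KX k) (LX k) := (ell c).toAlgebra
  have hXe : X' = (Matrix.vecMulVec x y).map (al k) := by
    ext a b
    rw [hX', Matrix.map_apply, Matrix.vecMulVec_apply, Matrix.vecMulVec_apply, map_mul]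
  obtain ⟨hS1, hS2, hS3, hS4⟩ := hS x y hx hy hx0 hy0
  refine hLie (KX k) (LX k) n X' hn ⟨_, _, rfl⟩ ?_ ?_ ?_ ?_ ?_ ?_ A hA θ
    ((mem_Orth _ _ θ).1 (hle ((mem_Orth f φ θ).2 hθ)))
  · -- not zero
    intro h
    have h1 := congrFun (congrFun h a0) b0
    rw [hX', Matrix.vecMulVec_apply, Matrix.zero_apply, ← map_mul] at h1
    exact mul_ne_zero ha0 hyb (al_inj (h1.trans (map_zero _).symm))
  · -- kernel
    intro w hw'
    obtain ⟨d, q, hd, hq⟩ := clear w
    have h1 : ∑ a, tay c (q a) * y a = 0 := by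
      have h2 : X' *ᵥ (fun i => ell c (ι _ (q i))) = 0 := by
        have h3 : (fun i => ell c (ι _ (q i))) =
            ell c (ι _ d) • fun i => algebraMap (KX k) (LX k) (w i) := by
          funext i
          rw [← hq i, map_mul]
          rfl
        rw [h3, Matrix.mulVec_smul, hw', smul_zero]
      have h4 := congrFun h2 a0
      have h5 : (X' *ᵥ (fun i => ell c (ι _ (q i)))) a0 =
          al k (x a0 * ∑ a, tay c (q a) * y a) := by
        rw [map_mul, map_sum, Matrix.mulVec, dotProduct, Finset.mul_sum]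
        refine Finset.sum_congr rfl fun l _ => ?_
        rw [hX', Matrix.vecMulVec_apply, ell_ι, map_mul]
        ring
      rw [h5, Pi.zero_apply] at h4
      exact (mul_eq_zero.1 (al_inj (h4.trans (map_zero _).symm))).resolve_left ha0
    have h2 := hS1 q h1
    funext i
    have h3 := hq i
    rw [h2, Pi.zero_apply, map_zero] at h3
    exact (mul_eq_zero.1 h3).resolve_left fun h => hd (ι_inj (h.trans (map_zero _).symm))
  · -- rows
    intro w hw'
    obtain ⟨d, q, hd, hq⟩ := clear w
    have h1 : ∑ a, tay c (q a) * x a = 0 := by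
      have h2 : (fun i => ell c (ι _ (q i))) ᵥ* X' = 0 := by
        have h3 : (fun i => ell c (ι _ (q i))) =
            ell c (ι _ d) • fun i => algebraMap (KX k) (LX k) (w i) := by
          funext i
          rw [← hq i, map_mul]
          rfl
        rw [h3, Matrix.smul_vecMul, hw', smul_zero]
      have h4 := congrFun h2 b0
      have h5 : ((fun i => ell c (ι _ (q i))) ᵥ* X') b0 =
          al k (y b0 * ∑ a, tay c (q a) * x a) := by
        rw [map_mul, map_sum, Matrix.vecMul, dotProduct, Finset.mul_sum]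
        refine Finset.sum_congr rfl fun l _ => ?_
        rw [hX', Matrix.vecMulVec_apply, ell_ι, map_mul]
        ring
      rw [h5, Pi.zero_apply] at h4
      exact (mul_eq_zero.1 (al_inj (h4.trans (map_zero _).symm))).resolve_left hyb
    have h2 := hS2 q h1
    funext i
    have h3 := hq i
    rw [h2, Pi.zero_apply, map_zero] at h3
    exact (mul_eq_zero.1 h3).resolve_left fun h => hd (ι_inj (h.trans (map_zero _).symm))
  · -- commutant
    intro u hu
    obtain ⟨d, y', hd, hdy⟩ := clearM u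
    have h0 : ι k d ≠ 0 := fun h => hd (ι_inj (h.trans (map_zero _).symm))
    have h1 : y'.map (tay c) * Matrix.vecMulVec x y = Matrix.vecMulVec x y * y'.map (tay c) := by
      have h2 : (y'.map (ι k)).map (ell c) * X' = X' * (y'.map (ι k)).map (ell c) := by
        rw [← hdy]
        have h3 : (ι k d • u).map (ell c) = ell c (ι _ d) • u.map (ell c) :=
          Matrix.ext fun a b => map_mul (ell c) _ _
        rw [h3, Matrix.smul_mul, Matrix.mul_smul]
        congr 1
      have h5 : (y'.map (ι k)).map (ell c) = (y'.map (tay c)).map (al k) := by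
        ext1 a b
        simp only [Matrix.map_apply, ell_ι]
      rw [hXe, h5, ← Matrix.map_mul, ← Matrix.map_mul] at h2
      exact Matrix.ext fun a b => al_inj (congrFun (congrFun h2 a) b)
    obtain ⟨q, hq⟩ := hS3 y' h1
    refine ⟨(ι _ d)⁻¹ * ι _ q, ?_⟩
    ext1 a b
    have h2 := congrFun (congrFun hdy a) b
    rw [Matrix.smul_apply, Matrix.map_apply, hq, smul_eq_mul] at h2
    by_cases hab : a = b
    · subst hab
      rw [Matrix.diagonal_apply_eq] at h2 ⊢
      rw [← h2, inv_mul_cancel_left₀ h0]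
    · rw [Matrix.diagonal_apply_ne _ hab] at h2 ⊢
      rw [map_zero] at h2
      exact (mul_eq_zero.1 h2).resolve_left h0
  · -- no form
    intro hn3 u hu
    obtain ⟨d, y', hd, hdy⟩ := clearM u
    have h0 : ι k d ≠ 0 := fun h => hd (ι_inj (h.trans (map_zero _).symm))
    have h1 : Matrix.vecMulVec x y * y'.map (tay c) +
        y'.map (tay c) * (Matrix.vecMulVec x y)ᵀ = 0 := by
      have h2 : X' * (y'.map (ι k)).map (ell c) + (y'.map (ι k)).map (ell c) * X'ᵀ = 0 := by
        rw [← hdy]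
        have h3 : (ι k d • u).map (ell c) = ell c (ι _ d) • u.map (ell c) :=
          Matrix.ext fun a b => map_mul (ell c) _ _
        have h6 : X' * u.map (ell c) + u.map (ell c) * X'ᵀ = 0 := hu
        rw [h3, Matrix.smul_mul, Matrix.mul_smul, ← smul_add, h6, smul_zero]
      have h5 : (y'.map (ι k)).map (ell c) = (y'.map (tay c)).map (al k) := by
        ext1 a b
        simp only [Matrix.map_apply, ell_ι]
      rw [hXe, h5, ← Matrix.transpose_map, ← Matrix.map_mul, ← Matrix.map_mul,
        ← Matrix.map_add _ (map_add _)] at h2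
      exact Matrix.ext fun a b =>
        al_inj ((congrFun (congrFun h2 a) b).trans (map_zero (al k)).symm)
    have h7 := hS4 hn3 y' h1
    ext1 a b
    have h2 := congrFun (congrFun hdy a) b
    rw [Matrix.smul_apply, Matrix.map_apply, h7, smul_eq_mul, Matrix.zero_apply, map_zero] at h2
    exact (mul_eq_zero.1 h2).resolve_left h0
  · -- the span is stable
    intro θ₁ hθ₁
    have hθ₁' : θ₁ ∈ TJ := (mem_Orth _ _ θ₁).2 hθ₁
    exact closure f (ell c) φ X' hle θ₁
      (hdpm _ (span_stable f Dk D hfD E.B TJ hTJst) _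
        (Submodule.subset_span ⟨θ₁, hθ₁', rfl⟩))

end Pool.Agent.Helper61.CX
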